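import Pool.Agent.N436.DF.Stm3

/-!
# DH/21 (helper751): at most two good units
-/

set_option autoImplicit false

namespace Pool.Agent.N751.DF

open Finset Pool.Agent.N436.DF

theorem m1p0 (hb : S3_base) (hk : S3_kill) : S3_m1p0 := by
  intro V _ H S X v w f p s hM hU hfv
  by_contra hcon
  push Not at hcon
  have hT := hM.top
  have hmc := hT.mc
  have hok := hmc.ok
  obtain ⟨-, -, -, -, hbS⟩ := hb V H hok
  obtain ⟨hb1, hb2⟩ := hbS S hmc
  have hmnn := hok.m_nn
  -- the services
  have hs'nn : ∀ x z, 0 ≤ (fun x z => if f x = true then (0 : ℤ) else s x z) x z := by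
    intro x z
    dsimp only
    split_ifs
    · exact le_refl _
    · exact hU.nn x z
  have hcap : ∀ x ∈ X, load H X f p x +
      ∑ z ∈ S \ X, (fun x z => if f x = true then (0 : ℤ) else s x z) x z ≤ H.c (f x) x := by
    intro x hx
    refine le_trans ?_ (hU.cap x hx)
    refine add_le_add le_rfl (sum_le_sum fun z _ => ?_)
    dsimp only
    split_ifs
    · exact hU.nn x z
    · exact le_rfl
  obtain ⟨C, hCs, hCn, hC⟩ := hk V H S X f p (fun x z => if f x = true then (0 : ℤ) else s x z)
    hmc hT.sub ⟨v, hM.hv⟩ hU.col hs'nn hcap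
  rw [hT.h8] at hC
  have hav0 : ∀ x z, 0 ≤ av H f s x z := by
    intro x z
    unfold av
    split_ifs
    · exact hmnn x z
    · exact hU.nn x z
  have havm : ∀ x z, av H f s x z ≤ H.m x z := by
    intro x z
    unfold av
    split_ifs
    · exact le_rfl
    · exact hU.le x z
  have hsv : ∀ x z, 2 * av H f s x z + (if x = v ∧ z = w then 2 else 0) ≤
      sv H f (fun x z => if f x = true then (0 : ℤ) else s x z) x z := by
    intro x z
    have hm := hmnn x z
    have hsn := hU.nn x z
    have hsl := hU.le x z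
    unfold sv av
    by_cases hfx : f x = true
    · simp only [hfx, if_true]
      rw [min_eq_right hm]
      by_cases hxz : x = v ∧ z = w
      · rw [if_pos hxz]
        obtain ⟨rfl, rfl⟩ := hxz
        rw [hM.hr, if_neg (by norm_num)]
        linarith
      · rw [if_neg hxz]
        rcases hok.r01 x z with h | h <;> rw [h] <;> norm_num
    · have hxz : ¬ (x = v ∧ z = w) := by
        rintro ⟨rfl, -⟩
        exact hfx hfv
      simp only [hfx, if_neg hxz]
      simp only [Bool.false_eq_true, if_false]
      rw [min_eq_right hsl]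
      rcases hok.r01 x z with h | h <;> rw [h] <;> split_ifs <;> linarith
  have hsum : 2 * ∑ x ∈ X, ∑ z ∈ C, av H f s x z + (if w ∈ C then 2 else 0) ≤
      ∑ x ∈ X, ∑ z ∈ C, sv H f (fun x z => if f x = true then (0 : ℤ) else s x z) x z := by
    have h1 : ∑ x ∈ X, ∑ z ∈ C, (2 * av H f s x z + (if x = v ∧ z = w then 2 else 0)) ≤
        ∑ x ∈ X, ∑ z ∈ C, sv H f (fun x z => if f x = true then (0 : ℤ) else s x z) x z :=
      sum_le_sum fun x _ => sum_le_sum fun z _ => hsv x z
    refine le_trans (le_of_eq ?_) h1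
    have h2 : ∑ x ∈ X, ∑ z ∈ C, (if x = v ∧ z = w then (2 : ℤ) else 0) =
        if w ∈ C then 2 else 0 := by
      rw [sum_eq_single v]
      · simp only [true_and]
        rw [sum_ite_eq' C w (fun _ => (2 : ℤ))]
      · intro x _ hx
        refine sum_eq_zero fun z _ => if_neg ?_
        rintro ⟨h, -⟩
        exact hx h
      · intro h
        exact absurd hM.hv h
    rw [← h2, mul_sum, ← sum_add_distrib]
    refine sum_congr rfl fun x _ => ?_
    rw [mul_sum, ← sum_add_distrib]
  have hk0 : 0 ≤ ∑ x ∈ X, ∑ z ∈ C, av H f s x z :=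
    sum_nonneg fun x _ => sum_nonneg fun z _ => hav0 x z
  have hsubS : X ∪ C ⊆ S := union_subset hT.sub (hCs.trans sdiff_subset)
  by_cases hwC : w ∈ C
  · rw [if_pos hwC] at hsum
    by_cases hCC : C = S \ X
    · have e : X ∪ C = S := by
        rw [hCC]; exact union_sdiff_of_subset hT.sub
      have h3 := hb1 (X ∪ C) hsubS (hCn.mono subset_union_right)
      rw [← hCC] at hcon
      linarith
    · have hne : X ∪ C ≠ S := by
        intro h
        apply hCC
        rw [← h]
        ext z
        simp only [mem_sdiff, mem_union]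
        constructor
        · intro hz
          exact ⟨Or.inr hz, (mem_sdiff.1 (hCs hz)).2⟩
        · rintro ⟨h1 | h1, h2⟩
          · exact absurd h1 h2
          · exact h1
      have h3 := (hb2 (X ∪ C) hsubS (hCn.mono subset_union_right) hne).2
      have h4 : hp H (X ∪ C) = 3 := by omega
      have h5 : ∑ x ∈ X, ∑ z ∈ C, av H f s x z = 0 := by omega
      have hcl : ¬ RB H S (X ∪ C) := by
        intro h
        have := hT.rb8 (X ∪ C) hsubS h
        omega
      have h6 := hM.out (X ∪ C) ⟨hmc, hsubS, hCn.mono subset_union_right, hne, hcl, h4⟩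
        subset_union_left
      have h7 : ∑ x ∈ X, ∑ z ∈ S \ X, av H f s x z =
          ∑ x ∈ X, ∑ z ∈ S \ (X ∪ C), av H f s x z + ∑ x ∈ X, ∑ z ∈ C, av H f s x z := by
        rw [← sum_add_distrib]
        refine sum_congr rfl fun x _ => ?_
        rw [← sum_sdiff hCs]
        congr 2
        ext z
        simp only [mem_sdiff, mem_union]
        tauto
      have h8 : ∑ x ∈ X, ∑ z ∈ S \ (X ∪ C), av H f s x z ≤ mm H X (S \ (X ∪ C)) :=
        sum_le_sum fun x _ => sum_le_sum fun z _ => havm x z
      omega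
  · rw [if_neg hwC] at hsum
    have hrb : RB H S (X ∪ C) := by
      refine ⟨v, mem_union_left _ hM.hv, w, ?_, hM.hr⟩
      have h1 := mem_sdiff.1 hM.hw
      exact mem_sdiff.2 ⟨h1.1, fun h => (mem_union.1 h).elim h1.2 hwC⟩
    have hss : X ⊂ X ∪ C := by
      refine ⟨subset_union_left, fun h => ?_⟩
      obtain ⟨z, hz⟩ := hCn
      exact (mem_sdiff.1 (hCs hz)).2 (h (mem_union_right _ hz))
    have h9 := hT.max (X ∪ C) hss hsubS hrb
    omega

end Pool.Agent.N751.DF
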